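import Pool.Agent.Run7.h658.NLen.E5b

/-!
From the smoothed length to the length of the regular part of the nodal set.
-/

set_option autoImplicit false
open MeasureTheory Filter Topology Complex Metric Set
open scoped ContDiff ENNReal

namespace Run7.h658.NLen

open Pool.Agent.Q73.NL Run7.h341.NLen

/-- The rotated coordinates. -/
noncomputable def rot (u : ℂ → ℝ) (x : ℂ) (a : ℝ) (w : ℂ) : ℂ := x + dir u x a * w

theorem rot_mp {u : ℂ → ℝ} {x : ℂ} {a r : ℝ} (h : Near u x a r) :
    MeasurePreserving (rot u x a) volume volume := by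
  have h1 : dir u x a ∈ Submonoid.unitSphere ℂ := by
    rw [Submonoid.unitSphere, ← SetLike.mem_coe]
    simpa using norm_dir h
  let c : Circle := ⟨dir u x a, h1⟩
  have h2 : MeasurePreserving (rotation c) volume volume := (rotation c).measurePreserving
  have h3 : MeasurePreserving (fun z : ℂ => x + z) volume volume :=
    measurePreserving_add_left volume x
  exact h3.comp h2

theorem rot_emb {u : ℂ → ℝ} {x : ℂ} {a r : ℝ} (h : Near u x a r) :
    MeasurableEmbedding (rot u x a) := by
  have h1 : dir u x a ∈ Submonoid.unitSphere ℂ := by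
    rw [Submonoid.unitSphere, ← SetLike.mem_coe]
    simpa using norm_dir h
  let c : Circle := ⟨dir u x a, h1⟩
  have h2 : MeasurableEmbedding (rotation c) :=
    (rotation c).toHomeomorph.measurableEmbedding
  have h3 : MeasurableEmbedding (fun z : ℂ => x + z) := measurableEmbedding_addLeft x
  exact h3.comp h2

theorem ball_bound {u : ℂ → ℝ} {x : ℂ} {a r : ℝ} (h : Near u x a r)
    {δ ε : ℝ} (hδ : 0 < δ) (hδa : δ ≤ a / 10) (hε : 0 < ε) (hεa : ε ≤ a * r / 2) :
    r ≤ ∫ z in ball x (2 * r), FF u δ ε z := by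
  have hr := h.rpos
  have hc : Continuous (FF u δ ε) := cont_FF h.smooth hδ hε
  have hrotc : Continuous (rot u x a) := by
    unfold rot
    fun_prop
  let S : Set ℂ := measurableEquivRealProd ⁻¹' (Icc (-r) r ×ˢ Icc (-r) r)
  have e1 : ∫ z in ball x (2 * r), FF u δ ε z =
      ∫ w in rot u x a ⁻¹' ball x (2 * r), FF u δ ε (rot u x a w) :=
    ((rot_mp h).setIntegral_preimage_emb (rot_emb h) _ _).symm
  have hS : S ⊆ rot u x a ⁻¹' ball x (2 * r) := by
    intro w hw
    have hw' : w.re ∈ Icc (-r) r ∧ w.im ∈ Icc (-r) r := hw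
    rw [mem_preimage, mem_ball_iff_norm]
    have h1 := norm_pt h (abs_le.2 hw'.1) (abs_le.2 hw'.2)
    have h2 : rot u x a w = x + w.re • dir u x a + w.im • (dir u x a * I) := by
      rw [rot, Complex.real_smul, Complex.real_smul]
      conv_lhs => rw [← Complex.re_add_im w]
      ring
    rw [h2]
    exact h1
  have hpre : rot u x a ⁻¹' ball x (2 * r) = ball 0 (2 * r) := by
    ext w
    rw [mem_preimage, mem_ball_iff_norm, mem_ball_zero_iff, rot, add_sub_cancel_left, norm_mul,
      norm_dir h, one_mul]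
  have hcomp : Continuous fun w => FF u δ ε (rot u x a w) := hc.comp hrotc
  have e2 : ∫ w in S, FF u δ ε (rot u x a w) ≤
      ∫ w in rot u x a ⁻¹' ball x (2 * r), FF u δ ε (rot u x a w) := by
    refine setIntegral_mono_set ?_ ?_ hS.eventuallyLE
    · rw [hpre]
      exact (hcomp.continuousOn.integrableOn_compact (isCompact_closedBall 0 (2 * r))).mono_set
        ball_subset_closedBall
    · exact ae_of_all _ fun w => FF_nonneg u hε _
  have e3 : ∫ w in S, FF u δ ε (rot u x a w) =
      ∫ q in Icc (-r) r ×ˢ Icc (-r) r, FF u δ ε (rot u x a (measurableEquivRealProd.symm q)) := by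
    have h1 := (Complex.volume_preserving_equiv_real_prod.symm).setIntegral_preimage_emb
      (measurableEquivRealProd.symm.measurableEmbedding) (fun w => FF u δ ε (rot u x a w)) S
    rw [← h1]
    congr 2
  have hcont2 : Continuous fun q : ℝ × ℝ => FF u δ ε (rot u x a (measurableEquivRealProd.symm q)) := by
    refine hcomp.comp ?_
    exact Complex.equivRealProdCLM.symm.continuous
  have hint2 : IntegrableOn (fun q : ℝ × ℝ => FF u δ ε (rot u x a (measurableEquivRealProd.symm q)))
      (Icc (-r) r ×ˢ Icc (-r) r) (volume.prod volume) :=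
    hcont2.continuousOn.integrableOn_compact (isCompact_Icc.prod isCompact_Icc)
  have e4 := setIntegral_prod (μ := (volume : Measure ℝ)) (ν := (volume : Measure ℝ)) _ hint2
  have hpt : ∀ s τ : ℝ, rot u x a (measurableEquivRealProd.symm (s, τ)) =
      x + s • dir u x a + τ • (dir u x a * I) := by
    intro s τ
    have h1 : measurableEquivRealProd.symm (s, τ) = (s : ℂ) + τ * I := by
      apply Complex.ext <;> simp
    rw [h1, rot, Complex.real_smul, Complex.real_smul]
    ring
  have hinner : ∀ s ∈ Icc (-r) r, 9 / 10 ≤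
      ∫ τ in Icc (-r) r, FF u δ ε (rot u x a (measurableEquivRealProd.symm (s, τ))) := by
    intro s hs
    have h1 := inner_bound h (abs_le.2 hs) hδ hδa hε hεa
    rw [intervalIntegral.integral_of_le (by linarith), ← integral_Icc_eq_integral_Ioc] at h1
    simp only [hpt]
    have h2 := Real.pi_gt_three
    linarith
  have hint3 : IntegrableOn (fun s : ℝ =>
      ∫ τ in Icc (-r) r, FF u δ ε (rot u x a (measurableEquivRealProd.symm (s, τ))))
      (Icc (-r) r) := by
    rw [IntegrableOn, ← Measure.prod_restrict] at hint2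
    exact hint2.integral_prod_left
  have e5 : 9 / 10 * (2 * r) ≤ ∫ s in Icc (-r) r,
      ∫ τ in Icc (-r) r, FF u δ ε (rot u x a (measurableEquivRealProd.symm (s, τ))) := by
    have h1 : ∫ s in Icc (-r) r, (9 / 10 : ℝ) ≤ ∫ s in Icc (-r) r,
      ∫ τ in Icc (-r) r, FF u δ ε (rot u x a (measurableEquivRealProd.symm (s, τ))) := by
      refine setIntegral_mono_on ?_ hint3 measurableSet_Icc hinner
      exact continuous_const.continuousOn.integrableOn_compact isCompact_Icc
    have h2 : ∫ s in Icc (-r) r, (9 / 10 : ℝ) = 9 / 10 * (2 * r) := by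
      rw [setIntegral_const]
      simp only [Measure.real, Real.volume_Icc, smul_eq_mul]
      rw [ENNReal.toReal_ofReal (by linarith)]
      ring
    rw [h2] at h1
    exact h1
  have e6 : (volume : Measure (ℝ × ℝ)) = (volume : Measure ℝ).prod volume := rfl
  rw [e1]
  refine le_trans ?_ e2
  rw [e3, e6, e4]
  linarith

/-- E5. -/
theorem te5 : E5 := by
  refine ⟨8, by norm_num, fun u M δ₀ hu hM hδ₀ hint => ?_⟩
  let K : ℕ → Set ℂ := fun n => {z | ‖z‖ ≤ 1 - 1 / ((n : ℝ) + 1) ∧ u z = 0 ∧
    1 / ((n : ℝ) + 1) ≤ √(gsq u z)}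
  have hanti : ∀ m n : ℕ, m ≤ n → 1 / ((n : ℝ) + 1) ≤ 1 / ((m : ℝ) + 1) := fun m n h =>
    one_div_le_one_div_of_le (by positivity) (by exact_mod_cast Nat.succ_le_succ h)
  have hmono : Monotone K := by
    intro m n hmn z hz
    have := hanti m n hmn
    exact ⟨by linarith [hz.1], hz.2.1, this.trans hz.2.2⟩
  have hsub : {z : ℂ | z ∈ ball (0 : ℂ) 1 ∧ u z = 0 ∧ 0 < gsq u z} ⊆ ⋃ n, K n := by
    rintro z ⟨hz1, hz2, hz3⟩
    rw [mem_ball_zero_iff] at hz1
    have h1 : 0 < min (1 - ‖z‖) (√(gsq u z)) := lt_min (by linarith) (Real.sqrt_pos.2 hz3)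
    obtain ⟨n, hn⟩ := exists_nat_one_div_lt h1
    rw [mem_iUnion]
    have h2 := hn.le.trans (min_le_left _ _)
    have h3 := hn.le.trans (min_le_right _ _)
    exact ⟨n, by linarith, hz2, h3⟩
  refine (measure_mono hsub).trans ?_
  rw [hmono.measure_iUnion]
  refine iSup_le fun n => ?_
  set b : ℝ := 1 / ((n : ℝ) + 1) with hb
  have hb0 : 0 < b := by positivity
  -- uniform continuity
  obtain ⟨ρ, hρ, hρx⟩ := Metric.uniformContinuousOn_iff.1
    ((isCompact_closedBall (0 : ℂ) 1).uniformContinuousOn_of_continuous (cont_dx hu).continuousOn)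
    (b / 20) (by positivity)
  obtain ⟨ρ', hρ', hρy⟩ := Metric.uniformContinuousOn_iff.1
    ((isCompact_closedBall (0 : ℂ) 1).uniformContinuousOn_of_continuous (cont_dy hu).continuousOn)
    (b / 20) (by positivity)
  let r₀ : ℝ := min (min (1 / 10) (b / 4)) (min (ρ / 2) (ρ' / 2))
  have hr₀ : 0 < r₀ := by
    simp only [r₀]
    positivity
  -- the packing bound
  have hpack : ∀ r : ℝ, 0 < r → r ≤ r₀ → ∀ S : Finset ℂ, (S : Set ℂ) ⊆ K n →
      (∀ x ∈ S, ∀ y ∈ S, x ≠ y → 4 * r ≤ dist x y) → (S.card : ℝ) * r ≤ M := by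
    intro r hr hrr₀ S hSK hsep
    have hr1 : r ≤ 1 / 10 := hrr₀.trans ((min_le_left _ _).trans (min_le_left _ _))
    have hr2 : r ≤ b / 4 := hrr₀.trans ((min_le_left _ _).trans (min_le_right _ _))
    have hr3 : r ≤ ρ / 2 := hrr₀.trans ((min_le_right _ _).trans (min_le_left _ _))
    have hr4 : r ≤ ρ' / 2 := hrr₀.trans ((min_le_right _ _).trans (min_le_right _ _))
    let δ : ℝ := min δ₀ (b / 10)
    have hδ : 0 < δ := lt_min hδ₀ (by positivity)
    let ε : ℝ := b * r / 2
    have hε : 0 < ε := by simp only [ε]; positivity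
    have hball : ∀ x ∈ S, ball x (2 * r) ⊆ ball 0 1 := by
      intro x hx y hy
      have h1 := (hSK hx).1
      rw [mem_ball_iff_norm] at hy
      rw [mem_ball_zero_iff]
      calc ‖y‖ = ‖(y - x) + x‖ := by rw [sub_add_cancel]
        _ ≤ ‖y - x‖ + ‖x‖ := norm_add_le _ _
        _ < 1 := by linarith
    have hnear : ∀ x ∈ S, Near u x (√(gsq u x)) r := by
      intro x hx
      have hxK := hSK hx
      have ha : b ≤ √(gsq u x) := hxK.2.2
      have hx1 : x ∈ closedBall (0 : ℂ) 1 := by
        rw [mem_closedBall_zero_iff]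
        linarith [hxK.1]
      refine ⟨hu, hxK.2.1, lt_of_lt_of_le hb0 ha, (Real.sq_sqrt (gsq_nonneg u x)).symm, hr, hr1,
        fun y hy => ?_, fun y hy => ?_⟩
      · have hy1 : y ∈ closedBall (0 : ℂ) 1 := ball_subset_closedBall
          (hball x hx (mem_ball_iff_norm.2 hy))
        have h1 := hρx y hy1 x hx1 (by rw [dist_eq_norm]; linarith)
        rw [Real.dist_eq] at h1
        linarith
      · have hy1 : y ∈ closedBall (0 : ℂ) 1 := ball_subset_closedBall
          (hball x hx (mem_ball_iff_norm.2 hy))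
        have h1 := hρy y hy1 x hx1 (by rw [dist_eq_norm]; linarith)
        rw [Real.dist_eq] at h1
        linarith
    have hlow : ∀ x ∈ S, r ≤ ∫ z in ball x (2 * r), FF u δ ε z := by
      intro x hx
      have ha : b ≤ √(gsq u x) := (hSK hx).2.2
      refine ball_bound (hnear x hx) hδ ((min_le_right _ _).trans (by linarith)) hε ?_
      simp only [ε]
      nlinarith
    have hc : Continuous (FF u δ ε) := cont_FF hu hδ hε
    have hion : IntegrableOn (FF u δ ε) (ball 0 1) :=
      (hc.continuousOn.integrableOn_compact (isCompact_closedBall 0 1)).mono_set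
        ball_subset_closedBall
    have hdisj : Set.Pairwise (S : Set ℂ) (Function.onFun Disjoint fun x => ball x (2 * r)) := by
      intro x hx y hy hxy
      refine ball_disjoint_ball ?_
      have := hsep x hx y hy hxy
      linarith
    have hsum : ∑ x ∈ S, ∫ z in ball x (2 * r), FF u δ ε z ≤ ∫ z in ball (0 : ℂ) 1, FF u δ ε z := by
      rw [← integral_biUnion_finset S (fun x _ => measurableSet_ball) hdisj
        (fun x hx => hion.mono_set (hball x hx))]
      refine setIntegral_mono_set hion (ae_of_all _ fun z => FF_nonneg u hε z) ?_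
      exact (iUnion₂_subset hball).eventuallyLE
    have hM' : ∫ z in ball (0 : ℂ) 1, FF u δ ε z ≤ M := hint δ ε hδ (min_le_left _ _) hε
    calc (S.card : ℝ) * r = ∑ x ∈ S, r := by rw [Finset.sum_const, nsmul_eq_mul]
      _ ≤ ∑ x ∈ S, ∫ z in ball x (2 * r), FF u δ ε z := Finset.sum_le_sum hlow
      _ ≤ M := hsum.trans hM'
  -- maximal separated sets
  have hcover : ∀ r : ℝ, 0 < r → r ≤ r₀ → ∃ S : Finset ℂ, (S.card : ℝ) * r ≤ M ∧
      K n ⊆ ⋃ x ∈ S, ball x (4 * r) := by
    classical
    intro r hr hrr₀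
    let T : Set ℕ := {m | ∃ S : Finset ℂ, (S : Set ℂ) ⊆ K n ∧
      (∀ x ∈ S, ∀ y ∈ S, x ≠ y → 4 * r ≤ dist x y) ∧ S.card = m}
    have hT0 : T.Nonempty := ⟨0, ∅, by simp, by simp, rfl⟩
    have hTb : BddAbove T := by
      refine ⟨⌊M / r⌋₊, ?_⟩
      rintro m ⟨S, h1, h2, rfl⟩
      refine Nat.le_floor ?_
      rw [le_div_iff₀ hr]
      exact hpack r hr hrr₀ S h1 h2
    obtain ⟨S, h1, h2, h3⟩ := Nat.sSup_mem hT0 hTb
    refine ⟨S, hpack r hr hrr₀ S h1 h2, fun z hz => ?_⟩
    by_contra hcon
    simp only [mem_iUnion, not_exists, mem_ball, not_lt] at hcon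
    have hzS : z ∉ S := fun h => by
      have := hcon z h
      rw [dist_self] at this
      linarith
    have h4 : S.card + 1 ∈ T := by
      refine ⟨insert z S, ?_, ?_, Finset.card_insert_of_notMem hzS⟩
      · rw [Finset.coe_insert, insert_subset_iff]
        exact ⟨hz, h1⟩
      · intro x hx y hy hxy
        rcases Finset.mem_insert.1 hx with rfl | hx'
        · rcases Finset.mem_insert.1 hy with rfl | hy
          · exact absurd rfl hxy
          · exact hcon y hy
        · rcases Finset.mem_insert.1 hy with rfl | hy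
          · rw [dist_comm]
            exact hcon x hx'
          · exact h2 x hx' y hy hxy
    have h5 := le_csSup hTb h4
    omega
  choose! S hS1 hS2 using hcover
  let ρs : ℕ → ℝ := fun m => r₀ / ((m : ℝ) + 1)
  have hρs0 : ∀ m, 0 < ρs m := fun m => by simp only [ρs]; positivity
  have hρs1 : ∀ m, ρs m ≤ r₀ := fun m => by
    simp only [ρs]
    rw [div_le_iff₀ (by positivity)]
    have : (0 : ℝ) ≤ m := Nat.cast_nonneg _
    nlinarith
  have hdiam : ∀ (x : ℂ) (m : ℕ), ediam (ball x (4 * ρs m)) ≤ ENNReal.ofReal (8 * ρs m) := by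
    intro x m
    have h1 : ball x (4 * ρs m) = Metric.eball x (ENNReal.ofReal (4 * ρs m)) :=
      (Metric.eball_ofReal).symm
    rw [h1]
    refine ediam_eball_le.trans ?_
    rw [show (8 : ℝ) * ρs m = 2 * (4 * ρs m) by ring,
      ENNReal.ofReal_mul (p := 2) (by norm_num)]
    simp
  have hlim : Tendsto (fun m => ENNReal.ofReal (8 * ρs m)) atTop (𝓝 0) := by
    rw [← ENNReal.ofReal_zero]
    refine ENNReal.tendsto_ofReal ?_
    have h1 : Tendsto (fun m : ℕ => 1 / ((m : ℝ) + 1)) atTop (𝓝 0) :=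
      tendsto_one_div_add_atTop_nhds_zero_nat
    have h2 := h1.const_mul (8 * r₀)
    rw [mul_zero] at h2
    refine h2.congr fun m => ?_
    simp only [ρs]
    ring
  have hH := Measure.hausdorffMeasure_le_liminf_sum (ι := fun m : ℕ => (S (ρs m) : Type)) 1 (K n)
    (l := atTop) (fun m => ENNReal.ofReal (8 * ρs m)) hlim
    (fun m x => ball (x : ℂ) (4 * ρs m)) (Eventually.of_forall fun m x => hdiam x m)
    (Eventually.of_forall fun m => by
      refine (hS2 (ρs m) (hρs0 m) (hρs1 m)).trans ?_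
      intro z hz
      simp only [mem_iUnion] at hz ⊢
      obtain ⟨x, hx, hzx⟩ := hz
      exact ⟨⟨x, hx⟩, hzx⟩)
  refine hH.trans ?_
  refine liminf_le_of_le (by isBoundedDefault) fun c hc => ?_
  obtain ⟨m, hm⟩ := hc.exists
  refine hm.trans ?_
  calc ∑ i : S (ρs m), ediam (ball (i : ℂ) (4 * ρs m)) ^ (1 : ℝ)
      ≤ ∑ i : S (ρs m), ENNReal.ofReal (8 * ρs m) := by
        refine Finset.sum_le_sum fun i _ => ?_
        rw [ENNReal.rpow_one]
        exact hdiam _ _
    _ = ENNReal.ofReal (8 * ((S (ρs m)).card * ρs m)) := by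
        rw [Finset.sum_const, Finset.card_univ, Fintype.card_coe, nsmul_eq_mul,
          ← ENNReal.ofReal_natCast, ← ENNReal.ofReal_mul (Nat.cast_nonneg _)]
        congr 1
        ring
    _ ≤ ENNReal.ofReal (8 * M) := by
        refine ENNReal.ofReal_le_ofReal ?_
        have := hS1 (ρs m) (hρs0 m) (hρs1 m)
        linarith

end Run7.h658.NLen
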