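import Pool.Agent.Run7.h341.NLen.Iface

/-!
From the smoothed length to the length of the regular part of the nodal set: the local estimate.
-/

set_option autoImplicit false
open MeasureTheory Filter Topology Complex Metric Set
open scoped ContDiff

namespace Run7.h658.NLen

open Pool.Agent.Q73.NL Run7.h341.NLen

/-- The integrand. -/
noncomputable def FF (u : ℂ → ℝ) (δ ε : ℝ) (z : ℂ) : ℝ :=
  ε / (ε ^ 2 + u z ^ 2) * (gsq u z / √(PP δ u z))

theorem fderiv_apply_eq {u : ℂ → ℝ} (z v : ℂ) :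
    fderiv ℝ u z v = v.re * dx u z + v.im * dy u z := by
  have h1 : v = v.re • (1 : ℂ) + v.im • I := by
    apply Complex.ext <;> simp
  conv_lhs => rw [h1]
  rw [map_add, map_smul, map_smul, smul_eq_mul, smul_eq_mul]
  rfl

theorem cont_dx {u : ℂ → ℝ} (hu : ContDiff ℝ ∞ u) : Continuous (dx u) :=
  (hu.continuous_fderiv (by simp)).clm_apply continuous_const

theorem cont_dy {u : ℂ → ℝ} (hu : ContDiff ℝ ∞ u) : Continuous (dy u) :=
  (hu.continuous_fderiv (by simp)).clm_apply continuous_const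

theorem cont_gsq {u : ℂ → ℝ} (hu : ContDiff ℝ ∞ u) : Continuous (gsq u) :=
  ((cont_dx hu).pow 2).add ((cont_dy hu).pow 2)

theorem gsq_nonneg (u : ℂ → ℝ) (z : ℂ) : 0 ≤ gsq u z := by
  unfold gsq
  positivity

theorem PP_pos (u : ℂ → ℝ) {δ : ℝ} (hδ : 0 < δ) (z : ℂ) : 0 < PP δ u z := by
  have := gsq_nonneg u z
  unfold PP
  positivity

theorem cont_FF {u : ℂ → ℝ} (hu : ContDiff ℝ ∞ u) {δ ε : ℝ} (hδ : 0 < δ) (hε : 0 < ε) :
    Continuous (FF u δ ε) := by
  have h1 : Continuous u := hu.continuous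
  have h2 : Continuous (PP δ u) := ((cont_gsq hu).add (h1.pow 2)).add continuous_const
  refine Continuous.mul (Continuous.div continuous_const (continuous_const.add (h1.pow 2))
    fun z => by positivity) (Continuous.div (cont_gsq hu) h2.sqrt fun z => ?_)
  exact (Real.sqrt_pos.2 (PP_pos u hδ z)).ne'

theorem FF_nonneg (u : ℂ → ℝ) {δ ε : ℝ} (hε : 0 < ε) (z : ℂ) : 0 ≤ FF u δ ε z := by
  have := gsq_nonneg u z
  unfold FF
  positivity

/-- The pointwise estimate. -/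
theorem FF_lower {u : ℂ → ℝ} {y : ℂ} {a δ ε A B : ℝ} (ha : 0 < a) (hδ : 0 < δ) (hδa : δ ≤ a / 10)
    (hε : 0 < ε) (hg : gsq u y = A ^ 2 + B ^ 2) (hA1 : 9 / 10 * a ≤ A) (hA2 : A ≤ 11 / 10 * a)
    (hB : |B| ≤ 1 / 10 * a) (hu : |u y| ≤ 12 / 100 * a) :
    3 / 5 * (ε * A / (ε ^ 2 + u y ^ 2)) ≤ FF u δ ε y := by
  have hA0 : 0 < A := by linarith
  have hB2 : B ^ 2 ≤ (1 / 10 * a) ^ 2 := by
    rw [← sq_abs B]
    exact pow_le_pow_left₀ (abs_nonneg _) hB 2
  have hu2 : u y ^ 2 ≤ (12 / 100 * a) ^ 2 := by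
    rw [← sq_abs (u y)]
    exact pow_le_pow_left₀ (abs_nonneg _) hu 2
  have hd2 : δ ^ 2 ≤ (a / 10) ^ 2 := pow_le_pow_left₀ hδ.le hδa 2
  have hA3 : A ^ 2 ≤ (11 / 10 * a) ^ 2 := pow_le_pow_left₀ hA0.le hA2 2
  have hP : √(PP δ u y) ≤ 28 / 25 * a := by
    rw [Real.sqrt_le_left (by positivity)]
    unfold PP
    rw [hg]
    nlinarith
  have hP0 : 0 < √(PP δ u y) := Real.sqrt_pos.2 (PP_pos u hδ y)
  have hG : A ^ 2 ≤ gsq u y := by
    rw [hg]
    nlinarith [sq_nonneg B]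
  have h1 : 3 / 5 * A ≤ gsq u y / √(PP δ u y) := by
    rw [le_div_iff₀ hP0]
    have h2 : 3 / 5 * A * √(PP δ u y) ≤ 3 / 5 * A * (28 / 25 * a) :=
      mul_le_mul_of_nonneg_left hP (by positivity)
    have h3 : 3 / 5 * A * (28 / 25 * a) ≤ A ^ 2 := by nlinarith
    linarith
  have h0 : 0 < ε / (ε ^ 2 + u y ^ 2) := by positivity
  have h4 : 3 / 5 * (ε * A / (ε ^ 2 + u y ^ 2)) = ε / (ε ^ 2 + u y ^ 2) * (3 / 5 * A) := by
    ring
  rw [h4, FF]
  exact mul_le_mul_of_nonneg_left h1 h0.le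

/-- The data at a regular zero. -/
structure Near (u : ℂ → ℝ) (x : ℂ) (a r : ℝ) : Prop where
  smooth : ContDiff ℝ ∞ u
  zero : u x = 0
  apos : 0 < a
  grad : gsq u x = a ^ 2
  rpos : 0 < r
  rle : r ≤ 1 / 10
  closex : ∀ y, ‖y - x‖ < 2 * r → |dx u y - dx u x| ≤ a / 20
  closey : ∀ y, ‖y - x‖ < 2 * r → |dy u y - dy u x| ≤ a / 20

/-- The direction of the rotated coordinates. -/
noncomputable def dir (u : ℂ → ℝ) (x : ℂ) (a : ℝ) : ℂ := ⟨dy u x / a, -(dx u x) / a⟩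

theorem norm_dir {u : ℂ → ℝ} {x : ℂ} {a r : ℝ} (h : Near u x a r) : ‖dir u x a‖ = 1 := by
  have h1 : Complex.normSq (dir u x a) = 1 := by
    have ha := h.apos
    have := h.grad
    unfold gsq at this
    simp only [dir, Complex.normSq_mk]
    field_simp
    linarith
  have h2 := Complex.normSq_eq_norm_sq (dir u x a)
  rw [h1] at h2
  have h3 : (0 : ℝ) ≤ ‖dir u x a‖ := norm_nonneg _
  nlinarith

/-- The components of the gradient in the rotated coordinates. -/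
theorem comps {u : ℂ → ℝ} {x : ℂ} {a r : ℝ} (h : Near u x a r) (y : ℂ) (hy : ‖y - x‖ < 2 * r) :
    9 / 10 * a ≤ fderiv ℝ u y (dir u x a * I) ∧ fderiv ℝ u y (dir u x a * I) ≤ 11 / 10 * a ∧
    |fderiv ℝ u y (dir u x a)| ≤ 1 / 10 * a ∧
    gsq u y = fderiv ℝ u y (dir u x a * I) ^ 2 + fderiv ℝ u y (dir u x a) ^ 2 := by
  have ha := h.apos
  have hg := h.grad
  unfold gsq at hg
  have hx := abs_le.1 (h.closex y hy)
  have hy' := abs_le.1 (h.closey y hy)
  set p := dx u x with hp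
  set q := dy u x with hq
  set P := dx u y with hP
  set T := dy u y with hT
  have e1 : fderiv ℝ u y (dir u x a * I) = (p * P + q * T) / a := by
    rw [fderiv_apply_eq]
    simp only [dir, Complex.mul_re, Complex.mul_im, Complex.I_re, Complex.I_im]
    rw [← hp, ← hq, ← hP, ← hT]
    field_simp
    ring
  have e2 : fderiv ℝ u y (dir u x a) = (q * P - p * T) / a := by
    rw [fderiv_apply_eq]
    simp only [dir]
    rw [← hp, ← hq, ← hP, ← hT]
    field_simp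
    ring
  have hpa : |p| ≤ a := abs_le_of_sq_le_sq (by nlinarith [sq_nonneg q]) ha.le
  have hqa : |q| ≤ a := abs_le_of_sq_le_sq (by nlinarith [sq_nonneg p]) ha.le
  have hpP : |p * (P - p)| ≤ a * (a / 20) := by
    rw [abs_mul]
    exact mul_le_mul hpa (abs_le.2 hx) (abs_nonneg _) ha.le
  have hqT : |q * (T - q)| ≤ a * (a / 20) := by
    rw [abs_mul]
    exact mul_le_mul hqa (abs_le.2 hy') (abs_nonneg _) ha.le
  have hqP : |q * (P - p)| ≤ a * (a / 20) := by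
    rw [abs_mul]
    exact mul_le_mul hqa (abs_le.2 hx) (abs_nonneg _) ha.le
  have hpT : |p * (T - q)| ≤ a * (a / 20) := by
    rw [abs_mul]
    exact mul_le_mul hpa (abs_le.2 hy') (abs_nonneg _) ha.le
  have k1 := abs_le.1 hpP
  have k2 := abs_le.1 hqT
  have k3 := abs_le.1 hqP
  have k4 := abs_le.1 hpT
  refine ⟨?_, ?_, ?_, ?_⟩
  · rw [e1, le_div_iff₀ ha]
    nlinarith
  · rw [e1, div_le_iff₀ ha]
    nlinarith
  · rw [e2, abs_div, abs_of_pos ha, div_le_iff₀ ha, abs_le]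
    constructor <;> nlinarith
  · rw [e1, e2]
    unfold gsq
    rw [← hP, ← hT]
    field_simp
    rw [← hg]
    ring

end Run7.h658.NLen
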