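import Pool.Agent.Run7.h658.NLen.E5a

/-!
From the smoothed length to the length of the regular part of the nodal set: the integral over a
small disc.
-/

set_option autoImplicit false
open MeasureTheory Filter Topology Complex Metric Set
open scoped ContDiff

namespace Run7.h658.NLen

open Pool.Agent.Q73.NL Run7.h341.NLen

theorem hasDerivAt_line {u : ℂ → ℝ} (hu : ContDiff ℝ ∞ u) (z v : ℂ) (τ : ℝ) :
    HasDerivAt (fun τ : ℝ => u (z + τ • v)) (fderiv ℝ u (z + τ • v) v) τ := by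
  have h1 : HasFDerivAt u (fderiv ℝ u (z + τ • v)) (z + τ • v) :=
    (hu.differentiable (by simp)).differentiableAt.hasFDerivAt
  have h2 : HasDerivAt (fun τ : ℝ => z + τ • v) v τ := by
    have := ((hasDerivAt_id τ).smul_const v).const_add z
    simpa using this
  exact h1.comp_hasDerivAt τ h2

theorem norm_pt {u : ℂ → ℝ} {x : ℂ} {a r : ℝ} (h : Near u x a r) {s τ : ℝ} (hs : |s| ≤ r)
    (hτ : |τ| ≤ r) : ‖(x + s • dir u x a + τ • (dir u x a * I)) - x‖ < 2 * r := by
  have e1 : (x + s • dir u x a + τ • (dir u x a * I)) - x = dir u x a * (s + τ * I) := by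
    rw [Complex.real_smul, Complex.real_smul]
    ring
  rw [e1, norm_mul, norm_dir h, one_mul]
  have h1 : ‖(s : ℂ) + τ * I‖ ^ 2 = s ^ 2 + τ ^ 2 := by
    rw [← Complex.normSq_eq_norm_sq, Complex.normSq_add_mul_I]
  have h2 : s ^ 2 ≤ r ^ 2 := by
    rw [← sq_abs s]
    exact pow_le_pow_left₀ (abs_nonneg _) hs 2
  have h3 : τ ^ 2 ≤ r ^ 2 := by
    rw [← sq_abs τ]
    exact pow_le_pow_left₀ (abs_nonneg _) hτ 2
  have hr := h.rpos
  by_contra hcon
  push Not at hcon
  have h4 : (2 * r) ^ 2 ≤ ‖(s : ℂ) + τ * I‖ ^ 2 := pow_le_pow_left₀ (by positivity) hcon 2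
  nlinarith

/-- The value at the foot point. -/
theorem foot {u : ℂ → ℝ} {x : ℂ} {a r : ℝ} (h : Near u x a r) {s : ℝ} (hs : |s| ≤ r) :
    |u (x + s • dir u x a)| ≤ 1 / 10 * a * r := by
  have hr := h.rpos
  have h1 := Convex.norm_image_sub_le_of_norm_hasDerivWithin_le (𝕜 := ℝ)
    (f := fun τ : ℝ => u (x + τ • dir u x a)) (s := Icc (-r) r)
    (f' := fun τ : ℝ => fderiv ℝ u (x + τ • dir u x a) (dir u x a)) (C := 1 / 10 * a)
    (fun τ _ => (hasDerivAt_line h.smooth x (dir u x a) τ).hasDerivWithinAt)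
    (fun τ hτ => by
      rw [Real.norm_eq_abs]
      have h2 := norm_pt h (s := τ) (τ := 0) (abs_le.2 hτ) (by rw [abs_zero]; exact hr.le)
      rw [zero_smul, add_zero] at h2
      exact (comps h _ h2).2.2.1)
    (convex_Icc _ _) (x := 0) (y := s) ⟨by linarith, hr.le⟩ (abs_le.1 hs)
  simp only [zero_smul, add_zero, h.zero, sub_zero, Real.norm_eq_abs] at h1
  refine h1.trans ?_
  have ha := h.apos
  exact mul_le_mul_of_nonneg_left hs (by positivity)

/-- The function along a line. -/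
theorem line_bounds {u : ℂ → ℝ} {x : ℂ} {a r : ℝ} (h : Near u x a r) {s : ℝ} (hs : |s| ≤ r) :
    (∀ τ ∈ Icc (-r) r, |u (x + s • dir u x a + τ • (dir u x a * I))| ≤ 12 / 100 * a) ∧
    4 / 5 * (a * r) ≤ u (x + s • dir u x a + r • (dir u x a * I)) ∧
    u (x + s • dir u x a + (-r) • (dir u x a * I)) ≤ -(4 / 5 * (a * r)) := by
  have hr := h.rpos
  have ha := h.apos
  have hr' := h.rle
  set z := x + s • dir u x a with hz
  set v := dir u x a * I with hv
  have hd : ∀ τ : ℝ, HasDerivAt (fun τ : ℝ => u (z + τ • v)) (fderiv ℝ u (z + τ • v) v) τ :=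
    fun τ => hasDerivAt_line h.smooth z v τ
  have hb : ∀ τ ∈ Icc (-r) r, 9 / 10 * a ≤ fderiv ℝ u (z + τ • v) v ∧
      fderiv ℝ u (z + τ • v) v ≤ 11 / 10 * a := fun τ hτ => by
    have h1 := comps h _ (norm_pt h hs (abs_le.2 hτ))
    exact ⟨h1.1, h1.2.1⟩
  have h0 : |u z| ≤ 1 / 10 * a * r := foot h hs
  have hf : u (z + (0 : ℝ) • v) = u z := by rw [zero_smul, add_zero]
  have hcont : ContinuousOn (fun τ : ℝ => u (z + τ • v)) (Icc (-r) r) :=
    fun τ _ => (hd τ).continuousAt.continuousWithinAt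
  have hdiff : DifferentiableOn ℝ (fun τ : ℝ => u (z + τ • v)) (interior (Icc (-r) r)) :=
    fun τ _ => (hd τ).differentiableAt.differentiableWithinAt
  have hlow := (convex_Icc (-r) r).mul_sub_le_image_sub_of_le_deriv hcont hdiff
    (C := 9 / 10 * a) (fun τ hτ => by
      rw [(hd τ).deriv]
      exact (hb τ (interior_subset hτ)).1)
  have h0m : (0 : ℝ) ∈ Icc (-r) r := ⟨by linarith, hr.le⟩
  have e1 := hlow 0 h0m r ⟨by linarith, le_rfl⟩ hr.le
  have e2 := hlow (-r) ⟨le_rfl, by linarith⟩ 0 h0m (by linarith)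
  simp only [hf] at e1 e2
  have h0' := abs_le.1 h0
  refine ⟨fun τ hτ => ?_, by nlinarith, by nlinarith⟩
  have h1 := Convex.norm_image_sub_le_of_norm_hasDerivWithin_le (𝕜 := ℝ)
    (f := fun τ : ℝ => u (z + τ • v)) (s := Icc (-r) r)
    (f' := fun τ : ℝ => fderiv ℝ u (z + τ • v) v) (C := 11 / 10 * a)
    (fun τ _ => (hd τ).hasDerivWithinAt)
    (fun τ hτ => by
      rw [Real.norm_eq_abs, abs_le]
      have := hb τ hτ
      constructor <;> linarith)
    (convex_Icc _ _) (x := 0) (y := τ) h0m hτ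
  simp only [hf, sub_zero, Real.norm_eq_abs] at h1
  have h2 : |τ| ≤ r := abs_le.2 hτ
  have h3 : 11 / 10 * a * |τ| ≤ 11 / 10 * a * r := mul_le_mul_of_nonneg_left h2 (by positivity)
  have h4 : |u (z + τ • v)| ≤ |u (z + τ • v) - u z| + |u z| := by
    have := abs_add_le (u (z + τ • v) - u z) (u z)
    rwa [sub_add_cancel] at this
  have h5 : a * r ≤ a * (1 / 10) := mul_le_mul_of_nonneg_left hr' ha.le
  linarith

/-- The integral along a line. -/
theorem inner_bound {u : ℂ → ℝ} {x : ℂ} {a r : ℝ} (h : Near u x a r) {s : ℝ} (hs : |s| ≤ r)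
    {δ ε : ℝ} (hδ : 0 < δ) (hδa : δ ≤ a / 10) (hε : 0 < ε) (hεa : ε ≤ a * r / 2) :
    3 / 5 * (Real.pi / 2) ≤
      ∫ τ in (-r)..r, FF u δ ε (x + s • dir u x a + τ • (dir u x a * I)) := by
  have hr := h.rpos
  have ha := h.apos
  obtain ⟨hb1, hb2, hb3⟩ := line_bounds h hs
  set z := x + s • dir u x a with hz
  set v := dir u x a * I with hv
  have hd : ∀ τ : ℝ, HasDerivAt (fun τ : ℝ => u (z + τ • v)) (fderiv ℝ u (z + τ • v) v) τ :=
    fun τ => hasDerivAt_line h.smooth z v τ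
  have hcu : Continuous fun τ : ℝ => u (z + τ • v) :=
    h.smooth.continuous.comp (by fun_prop)
  have hcd : Continuous fun τ : ℝ => fderiv ℝ u (z + τ • v) v :=
    (((h.smooth.continuous_fderiv (by simp))).comp
      (show Continuous fun τ : ℝ => z + τ • v by fun_prop)).clm_apply continuous_const
  have hD : ∀ τ : ℝ, HasDerivAt (fun τ : ℝ => Real.arctan (u (z + τ • v) / ε))
      (ε * fderiv ℝ u (z + τ • v) v / (ε ^ 2 + u (z + τ • v) ^ 2)) τ := by
    intro τ
    have h1 := ((hd τ).div_const ε).arctan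
    refine h1.congr_deriv ?_
    have : 0 < ε ^ 2 + u (z + τ • v) ^ 2 := by positivity
    field_simp
  have hcont : Continuous fun τ : ℝ =>
      ε * fderiv ℝ u (z + τ • v) v / (ε ^ 2 + u (z + τ • v) ^ 2) :=
    Continuous.div (continuous_const.mul hcd) (continuous_const.add (hcu.pow 2))
      fun τ => by positivity
  have hint : ∫ τ in (-r)..r, ε * fderiv ℝ u (z + τ • v) v / (ε ^ 2 + u (z + τ • v) ^ 2) =
      Real.arctan (u (z + r • v) / ε) - Real.arctan (u (z + (-r) • v) / ε) :=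
    intervalIntegral.integral_eq_sub_of_hasDerivAt (fun τ _ => hD τ)
      (hcont.intervalIntegrable _ _)
  have hpi : Real.pi / 2 ≤
      Real.arctan (u (z + r • v) / ε) - Real.arctan (u (z + (-r) • v) / ε) := by
    have har : 0 < a * r := mul_pos ha hr
    have h1 : 1 ≤ u (z + r • v) / ε := by
      rw [le_div_iff₀ hε]
      linarith
    have h2 : u (z + (-r) • v) / ε ≤ -1 := by
      rw [div_le_iff₀ hε]
      linarith
    have h3 := Real.arctan_mono h1
    have h4 := Real.arctan_mono h2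
    rw [Real.arctan_one] at h3
    rw [Real.arctan_neg, Real.arctan_one] at h4
    linarith
  have hmono : ∫ τ in (-r)..r, 3 / 5 *
      (ε * fderiv ℝ u (z + τ • v) v / (ε ^ 2 + u (z + τ • v) ^ 2)) ≤
      ∫ τ in (-r)..r, FF u δ ε (z + τ • v) := by
    refine intervalIntegral.integral_mono_on (by linarith)
      ((continuous_const.mul hcont).intervalIntegrable _ _)
      (((cont_FF h.smooth hδ hε).comp (by fun_prop)).intervalIntegrable _ _) fun τ hτ => ?_
    obtain ⟨c1, c2, c3, c4⟩ := comps h _ (norm_pt h hs (abs_le.2 hτ))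
    exact FF_lower ha hδ hδa hε c4 c1 c2 c3 (hb1 τ hτ)
  rw [intervalIntegral.integral_const_mul, hint] at hmono
  refine le_trans ?_ hmono
  exact mul_le_mul_of_nonneg_left hpi (by norm_num)

end Run7.h658.NLen
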